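import Pool.Agent.H.MP_ba8092_nt.D

set_option autoImplicit false

namespace Pool.Agent.H.MP_ab119d_nt

open Filter Topology Finset Pool.Agent.H.MP_ba8092_nt

/-- Occurrences of a block at the positions `p = i + 1 ≤ n` with `p ≡ r` modulo `m`. -/
noncomputable def cntAP (q : ℕ → ℕ) (x : ℝ) {k : ℕ} (B : Fin k → ℕ) (m r n : ℕ) : ℕ :=
  #{i ∈ range n | (i + 1) % m = r ∧ ∀ t : Fin k, digit q x (i + t) = B t}

/-- The expected number of occurrences along the progression. -/
noncomputable def QkAP (q : ℕ → ℕ) (k m r n : ℕ) : ℝ :=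
  ∑ i ∈ range n with (i + 1) % m = r, 1 / ∏ t ∈ range k, (q (i + t) : ℝ)

/-- Normal of order `k` along the progression. -/
def NormalAP (q : ℕ → ℕ) (k m r : ℕ) (x : ℝ) : Prop :=
  ∀ B : Fin k → ℕ, Tendsto (fun n => (cntAP q x B m r n : ℝ) / QkAP q k m r n) atTop (𝓝 1)

end Pool.Agent.H.MP_ab119d_nt
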