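import Pool.Agent.H.MP_ba8092_nt.C
import Pool.Agent.H.MP_ab119d_nt.D

set_option autoImplicit false

namespace Pool.Agent.H.MP_ab119d_nt

open MeasureTheory Filter Topology Finset Pool.Agent.H.MP_ba8092_nt
open scoped ENNReal NNReal

theorem two_pow_le {q : ℕ → ℕ} (hq : ∀ n, 2 ≤ q n) (n : ℕ) : 2 ^ n ≤ pr q n := by
  have h1 := prod_le_prod' (s := range n) (f := fun _ => 2) (g := q) fun i _ => hq i
  rwa [prod_const, card_range] at h1

theorem dim_zero {q : ℕ → ℕ} (hq : ∀ n, 2 ≤ q n) (big : ℕ → Prop)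
    (hb : ∀ n, big n → pr q n ^ n ≤ q n) (z : ℤ) (d : ℕ) :
    dimH {x : ℝ | ⌊x⌋ = z ∧ ∃ᶠ n in atTop, big n ∧ digit q x n = d} = 0 := by
  classical
  refine le_antisymm (ENNReal.le_of_forall_pos_le_add fun s hs _ => ?_) zero_le
  rw [zero_add]
  refine dimH_le_of_hausdorffMeasure_ne_top (ne_top_of_le_ne_top (b := 2) (by simp) ?_)
  have hs0 : (0 : ℝ) < s := hs
  set t : ℕ → (n : ℕ) × Fin (pr q n) → Set ℝ := fun N a => if N ≤ a.1 ∧ big a.1 then
    Set.Icc (((pr q a.1 : ℝ) * z + (a.2 : ℕ) + d / q a.1) / pr q a.1)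
      (((pr q a.1 : ℝ) * z + (a.2 : ℕ) + (d + 1) / q a.1) / pr q a.1) else ∅ with ht
  have hd : ∀ N a, Metric.ediam (t N a) ≤ if N ≤ a.1 then
      ENNReal.ofReal (1 / (pr q a.1 : ℝ) ^ (a.1 + 1)) else 0 := by
    intro N a
    simp only [ht]
    split_ifs with h1 h2 h2
    · rw [Real.ediam_Icc]
      refine ENNReal.ofReal_le_ofReal ?_
      have a1 := pr_pos hq a.1
      have a2 := q_pos hq a.1
      have a3 : (pr q a.1 : ℝ) ^ a.1 ≤ q a.1 := by exact_mod_cast hb _ h1.2
      have : ((pr q a.1 : ℝ) * z + (a.2 : ℕ) + (d + 1) / q a.1) / pr q a.1 -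
          ((pr q a.1 : ℝ) * z + (a.2 : ℕ) + d / q a.1) / pr q a.1 = 1 / (q a.1 * pr q a.1) := by
        field_simp; ring
      rw [this, pow_succ]
      exact one_div_le_one_div_of_le (by positivity) (mul_le_mul_of_nonneg_right a3 a1.le)
    · exact absurd h1.1 h2
    · simp
    · simp
  have hP : ∀ n, (2 : ℝ) ^ n ≤ pr q n := fun n => by exact_mod_cast two_pow_le hq n
  have hP1 : ∀ n, (1 : ℝ) ≤ pr q n := fun n => (one_le_pow₀ one_le_two).trans (hP n)
  refine (Measure.hausdorffMeasure_le_liminf_tsum (l := atTop) s _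
    (fun N => ENNReal.ofReal ((1 / 2) ^ N)) ?_ t (Eventually.of_forall fun N a => ?_)
    (Eventually.of_forall fun N x hx => ?_)).trans ?_
  · have := ENNReal.tendsto_ofReal
      (tendsto_pow_atTop_nhds_zero_of_lt_one (r := (1 / 2 : ℝ)) (by norm_num) (by norm_num))
    rwa [ENNReal.ofReal_zero] at this
  · refine (hd N a).trans ?_
    split_ifs with h
    · refine ENNReal.ofReal_le_ofReal ?_
      rw [one_div_pow]
      refine one_div_le_one_div_of_le (by positivity) ?_
      exact ((pow_le_pow_right₀ one_le_two h).trans (hP _)).trans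
        (le_self_pow₀ (hP1 _) (Nat.succ_ne_zero _))
    · exact zero_le
  · obtain ⟨n, hn, h1, h2⟩ := frequently_atTop.1 hx.2 N
    have a1 := pr_pos hq n
    have a2 := q_pos hq n
    have a3 := Int.floor_eq_iff.1 hx.1
    have a4 : (pr q n : ℤ) * z ≤ ⌊(pr q n : ℝ) * x⌋ := by
      rw [Int.le_floor]; push_cast; exact mul_le_mul_of_nonneg_left a3.1 a1.le
    have a5 : ⌊(pr q n : ℝ) * x⌋ < (pr q n : ℤ) * z + pr q n := by
      rw [Int.floor_lt]; push_cast; nlinarith [a3.2]
    obtain ⟨K, hK⟩ := Int.eq_ofNat_of_zero_le (sub_nonneg.2 a4)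
    have hK' : (K : ℝ) = ⌊(pr q n : ℝ) * x⌋ - pr q n * z := by exact_mod_cast hK.symm
    refine Set.mem_iUnion.2 ⟨⟨n, ⟨K, by omega⟩⟩, ?_⟩
    simp only [ht]
    rw [if_pos ⟨hn, h1⟩]
    rw [digit, T, Nat.floor_eq_iff (mul_nonneg a2.le (Int.fract_nonneg _)), Int.fract,
      ← div_le_iff₀' a2, ← lt_div_iff₀' a2] at h2
    constructor
    · rw [div_le_iff₀' a1]; linarith [h2.1]
    · rw [le_div_iff₀' a1]; linarith [h2.2]
  · refine liminf_le_of_frequently_le' (Eventually.frequently ?_)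
    obtain ⟨N0, hN0⟩ := exists_nat_ge (2 / (s : ℝ))
    filter_upwards [eventually_ge_atTop N0] with N hN
    rw [ENNReal.tsum_sigma', ← ENNReal.tsum_geometric_two]
    refine ENNReal.tsum_le_tsum fun n => ?_
    have h1 : ∀ K : Fin (pr q n), Metric.ediam (t N ⟨n, K⟩) ^ (s : ℝ) ≤
        ENNReal.ofReal (1 / (pr q n : ℝ) ^ 2) := by
      intro K
      refine (ENNReal.rpow_le_rpow (hd N ⟨n, K⟩) hs0.le).trans ?_
      split_ifs with h
      · rw [ENNReal.ofReal_rpow_of_nonneg (by positivity) hs0.le]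
        refine ENNReal.ofReal_le_ofReal ?_
        rw [Real.div_rpow zero_le_one (by positivity), Real.one_rpow, ← Real.rpow_natCast,
          ← Real.rpow_mul (by positivity), ← Real.rpow_natCast]
        refine one_div_le_one_div_of_le (Real.rpow_pos_of_pos (pr_pos hq n) _)
          (Real.rpow_le_rpow_of_exponent_le (hP1 n) ?_)
        have : (N0 : ℝ) ≤ n := by exact_mod_cast hN.trans h
        rw [div_le_iff₀ hs0] at hN0
        push_cast
        nlinarith
      · simp [hs0]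
    refine (ENNReal.tsum_le_tsum h1).trans ?_
    rw [tsum_fintype, sum_const, card_univ, Fintype.card_fin, nsmul_eq_mul,
      ← ENNReal.ofReal_natCast, ← ENNReal.ofReal_mul (by positivity)]
    have a1 := pr_pos hq n
    have : (pr q n : ℝ) * (1 / (pr q n : ℝ) ^ 2) ≤ (1 / 2) ^ n := by
      rw [one_div_pow, show (pr q n : ℝ) * (1 / (pr q n : ℝ) ^ 2) = 1 / pr q n by field_simp]
      exact one_div_le_one_div_of_le (by positivity) (hP n)
    refine (ENNReal.ofReal_le_ofReal this).trans (le_of_eq ?_)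
    rw [ENNReal.ofReal_pow (by norm_num), one_div, ENNReal.ofReal_inv_of_pos two_pos]
    simp

def md (n : ℕ) : Prop := n < 4 ^ Nat.log 4 n + 2 ^ Nat.log 4 n

instance : DecidablePred md := fun n => by unfold md; infer_instance

def big (n : ℕ) : Prop := ¬ md n ∧ 2 ≤ n % 4

instance : DecidablePred big := fun n => by unfold big; infer_instance

def Pn : ℕ → ℕ
  | 0 => 1
  | n + 1 => Pn n * ((if big n then Pn n ^ n + 2 ^ n else 0) + (Nat.log 4 n + 2))

def Q (n : ℕ) : ℕ := (if big n then Pn n ^ n + 2 ^ n else 0) + (Nat.log 4 n + 2)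

theorem pr_Q : ∀ n, pr Q n = Pn n
  | 0 => rfl
  | n + 1 => by rw [pr_succ, pr_Q n]; rfl

theorem Q_two (n : ℕ) : 2 ≤ Q n := by unfold Q; omega

theorem Q_of {n : ℕ} (h : ¬ big n) : Q n = Nat.log 4 n + 2 := by simp [Q, h]

theorem log_top : Tendsto (Nat.log 4) atTop atTop :=
  tendsto_atTop.2 fun b => (eventually_ge_atTop (4 ^ b)).mono fun _ h =>
    Nat.le_log_of_pow_le (by norm_num) h

theorem Q_top : Tendsto Q atTop atTop :=
  tendsto_atTop_mono (fun n => by unfold Q; omega) log_top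

theorem lower {f : ℕ → ℝ} (h0 : ∀ i, 0 ≤ f i) {φ : ℕ → ℕ} (hφ : Function.Injective φ) {s : Finset ℕ}
    {U : ℕ} {c : ℝ} (h : ∀ u < U, φ u ∈ s ∧ c ≤ f (φ u)) : U * c ≤ ∑ i ∈ s, f i := by
  calc (U : ℝ) * c = ∑ _u ∈ range U, c := by simp
    _ ≤ ∑ u ∈ range U, f (φ u) := sum_le_sum fun u hu => (h u (mem_range.1 hu)).2
    _ = ∑ i ∈ (range U).image φ, f i := (sum_image fun _ _ _ _ e => hφ e).symm
    _ ≤ _ := sum_le_sum_of_subset_of_nonneg (fun i hi => by
        obtain ⟨u, hu, rfl⟩ := mem_image.1 hi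
        exact (h u (mem_range.1 hu)).1) fun i _ _ => h0 i

theorem poly_small (k : ℕ) (C : ℝ) :
    Tendsto (fun j : ℕ => C * ((j : ℝ) + 2) ^ k / 2 ^ j) atTop (𝓝 0) := by
  have := ((tendsto_pow_const_div_const_pow_of_one_lt k (r := 2) one_lt_two).comp
    (tendsto_add_atTop_nat 2)).const_mul (4 * C)
  rw [mul_zero] at this
  refine this.congr fun j => ?_
  simp only [Function.comp]
  push_cast
  field_simp
  ring

theorem div_AP {k m r : ℕ} (hr : r < m) : Tendsto (QkAP Q k m r) atTop atTop := by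
  have hmono : Monotone (QkAP Q k m r) := fun a b h =>
    sum_le_sum_of_subset_of_nonneg (filter_subset_filter _ (range_mono h)) fun i _ _ => by
      positivity
  refine tendsto_atTop_atTop_of_monotone hmono fun b => ?_
  obtain ⟨A, hA⟩ := exists_nat_ge b
  obtain ⟨j, hj⟩ := ((poly_small k (2 * m + k + m * A)).eventually
    (gt_mem_nhds zero_lt_one)).exists
  rw [div_lt_one (by positivity)] at hj
  have h1 : (2 * m + k + m * A) * (j + 2) ^ k < 2 ^ j := by exact_mod_cast hj
  have h2 : 1 ≤ (j + 2) ^ k := Nat.one_le_pow _ _ (by omega)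
  have h3 : 2 * m + k + m * (A * (j + 2) ^ k) < 2 ^ j := by nlinarith
  have h4 : 2 ^ j ≤ 4 ^ j := Nat.pow_le_pow_left (by norm_num) j
  have h5 := Nat.div_add_mod (4 ^ j) m
  have h6 := Nat.mod_lt (4 ^ j) (show 0 < m by omega)
  refine ⟨4 ^ j + 2 ^ j, hA.trans ?_⟩
  have := lower (f := fun i => 1 / ∏ t ∈ range k, (Q (i + t) : ℝ)) (fun i => by positivity)
    (φ := fun u => m * (4 ^ j / m) + m + r - 1 + m * u) (fun u v e => by
      have : m * u = m * v := by simpa using e
      exact Nat.eq_of_mul_eq_mul_left (by omega) this)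
    (s := {i ∈ range (4 ^ j + 2 ^ j) | (i + 1) % m = r}) (U := A * (j + 2) ^ k)
    (c := 1 / ((j : ℝ) + 2) ^ k) (fun u hu => by
      have h7 : m * u ≤ m * (A * (j + 2) ^ k) := Nat.mul_le_mul_left _ hu.le
      refine ⟨mem_filter.2 ⟨mem_range.2 (by omega), ?_⟩, le_of_eq ?_⟩
      · rw [show m * (4 ^ j / m) + m + r - 1 + m * u + 1 = r + m * (4 ^ j / m + 1 + u) by
          rw [mul_add, mul_add]; omega, Nat.add_mul_mod_self_left, Nat.mod_eq_of_lt hr]
      · congr 1
        rw [← card_range k, ← prod_const, card_range]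
        refine prod_congr rfl fun t ht => ?_
        have h8 := mem_range.1 ht
        have h9 : Nat.log 4 (m * (4 ^ j / m) + m + r - 1 + m * u + t) = j :=
          Nat.log_eq_of_pow_le_of_lt_pow (by omega) (by rw [pow_succ]; omega)
        rw [Q_of (fun h => h.1 (by rw [md, h9]; omega)), h9]
        push_cast; rfl)
  refine le_trans (le_of_eq ?_) this
  push_cast
  field_simp

noncomputable def cM (n : ℕ) : ℝ := ∑ i ∈ range n, if md i then 1 else 0

theorem cM_mono : Monotone cM := fun _ _ h =>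
  sum_le_sum_of_subset_of_nonneg (range_mono h) fun _ _ _ => by positivity

theorem cM_pow : ∀ j, cM (4 ^ j) ≤ 2 ^ j
  | 0 => by simp only [cM, pow_zero, sum_range_one]; split_ifs <;> norm_num
  | j + 1 => by
    have h1 := cM_pow j
    have h2 : 4 ^ j ≤ 4 ^ (j + 1) := Nat.pow_le_pow_right (by norm_num) (by omega)
    rw [cM, ← sum_range_add_sum_Ico _ h2, sum_boole md (Ico _ _)]
    have h3 : #{i ∈ Ico (4 ^ j) (4 ^ (j + 1)) | md i} ≤ 2 ^ j := by
      refine (card_le_card (t := Ico (4 ^ j) (4 ^ j + 2 ^ j)) fun i hi => ?_).trans (by simp)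
      obtain ⟨a, b⟩ := mem_filter.1 hi
      rw [mem_Ico] at a
      rw [md, Nat.log_eq_of_pow_le_of_lt_pow a.1 a.2] at b
      exact mem_Ico.2 ⟨a.1, b⟩
    have h4 : (#{i ∈ Ico (4 ^ j) (4 ^ (j + 1)) | md i} : ℝ) ≤ 2 ^ j := by exact_mod_cast h3
    rw [pow_succ (2 : ℝ)]
    change cM _ + _ ≤ _
    linarith

theorem Q2_ge {n : ℕ} (hn : 4 ≤ n) :
    4 ^ Nat.log 4 n / (4 * ((Nat.log 4 n : ℝ) + 2) ^ 2) ≤ Qk Q 2 n := by
  obtain ⟨j, hj⟩ : ∃ j, Nat.log 4 n = j + 1 :=
    ⟨Nat.log 4 n - 1, by have := Nat.log_pos (by norm_num : 1 < 4) hn; omega⟩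
  have h1 : 4 ^ (j + 1) ≤ n := hj ▸ Nat.pow_log_le_self 4 (by omega)
  have := lower (f := fun i => 1 / ∏ t ∈ range 2, (Q (i + t) : ℝ)) (fun i => by positivity)
    (φ := fun u => 4 * u) (fun u v e => by simpa using e) (s := range n) (U := 4 ^ j)
    (c := 1 / ((Nat.log 4 n : ℝ) + 2) ^ 2) (fun u hu => by
      rw [pow_succ] at h1
      refine ⟨mem_range.2 (by omega), one_div_le_one_div_of_le
        (prod_pos fun t _ => q_pos Q_two _) ?_⟩
      rw [← card_range 2, ← prod_const, card_range]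
      refine prod_le_prod (fun _ _ => by positivity) fun t ht => ?_
      have h8 := mem_range.1 ht
      rw [Q_of (fun h => by have := h.2; omega)]
      have : Nat.log 4 (4 * u + t) ≤ Nat.log 4 n := Nat.log_mono_right (by omega)
      exact_mod_cast Nat.add_le_add_right this 2)
  refine le_trans (le_of_eq ?_) this
  rw [hj]
  push_cast
  field_simp
  ring

theorem small {u : ℕ → ℝ} (h0 : ∀ i, 0 ≤ u i)
    (h : ∀ᶠ i in atTop, u i ≤ (if md i then 1 else 0) + (if md (i + 1) then 1 else 0) + (1 / 2) ^ i) :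
    Tendsto (fun n => (∑ i ∈ range n, u i) / Qk Q 2 n) atTop (𝓝 0) := by
  obtain ⟨c, hc⟩ := sum_ev (h.mono fun i hi => (min_eq_left hi).symm)
  have h2 : Tendsto (fun j : ℕ => (2 : ℝ) ^ j) atTop atTop :=
    tendsto_pow_atTop_atTop_of_one_lt one_lt_two
  refine tendsto_of_tendsto_of_tendsto_of_le_of_le' tendsto_const_nhds
    ((poly_small 2 20).comp log_top) (Eventually.of_forall fun n =>
      div_nonneg (sum_nonneg fun i _ => h0 i) (sum_nonneg fun i _ => by positivity)) ?_
  filter_upwards [hc, eventually_ge_atTop 4, (h2.comp log_top).eventually_ge_atTop (c + 2)]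
    with n h1 h3 h4
  have a1 : cM (n + 1) ≤ 2 ^ (Nat.log 4 n + 1) :=
    (cM_mono (Nat.lt_pow_succ_log_self (by norm_num) n)).trans (cM_pow _)
  have a2 := cM_mono (Nat.le_succ n)
  have a3 : ∑ i ∈ range n, (if md (i + 1) then (1 : ℝ) else 0) ≤ cM (n + 1) := by
    rw [cM, sum_range_succ']
    exact le_add_of_nonneg_right (by positivity)
  have a4 : ∑ i ∈ range n, ((1 : ℝ) / 2) ^ i ≤ 2 := sum_geometric_two_le n
  have a5 := sum_le_sum (s := range n) fun i _ => min_le_right (u i)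
    ((if md i then 1 else 0) + (if md (i + 1) then 1 else 0) + (1 / 2) ^ i)
  rw [sum_add_distrib, sum_add_distrib] at a5
  change _ ≤ cM n + _ + _ at a5
  simp only [Function.comp] at h4 ⊢
  rw [pow_succ] at a1
  have a6 : ∑ i ∈ range n, u i ≤ 5 * 2 ^ Nat.log 4 n := by simp only [Nat.succ_eq_add_one] at a2; linarith
  refine (div_le_div₀ (by positivity) a6 (by positivity) (Q2_ge h3)).trans (le_of_eq ?_)
  rw [show (4 : ℝ) ^ Nat.log 4 n = 2 ^ Nat.log 4 n * 2 ^ Nat.log 4 n by
    rw [← mul_pow]; norm_num]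
  field_simp
  ring

theorem odd_big {i : ℕ} (h : ¬ (i + 1) % 2 = 1) (h1 : ¬ md i) (h2 : ¬ md (i + 1)) :
    ∃ t : Fin 2, big (i + t) := by
  by_cases h4 : 2 ≤ i % 4
  · exact ⟨0, h1, h4⟩
  · exact ⟨1, h2, by simp only [Fin.val_one]; omega⟩

theorem key {x : ℝ} (hx : NormalOrd Q 2 x) (hz : ∀ d, ∀ᶠ n in atTop, ¬ (big n ∧ digit Q x n = d)) :
    NormalAP Q 2 2 1 x := by
  intro B
  have h1 := (normal_iff 2 x).1 hx B
  have h2 := small (u := fun i => if (i + 1) % 2 = 1 then 0 else ind (digit Q x) B i)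
    (fun i => by unfold ind; positivity) (by
      filter_upwards [eventually_forall_ge_atTop.2 ((hz (B 0)).and (hz (B 1)))] with i hi
      unfold ind
      by_cases a : (i + 1) % 2 = 1
      · rw [if_pos a]; positivity
      rw [if_neg a]
      by_cases b : ∀ r : Fin 2, digit Q x (i + r) = B r
      · rw [if_pos b]
        have : (0 : ℝ) ≤ (1 / 2) ^ i := by positivity
        by_cases c : md i
        · rw [if_pos c]; split_ifs <;> linarith
        by_cases e : md (i + 1)
        · rw [if_pos e, if_neg c]; linarith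
        obtain ⟨t, ht⟩ := odd_big a c e
        have := hi (i + t) (by omega)
        fin_cases t
        · exact absurd ⟨ht, b 0⟩ this.1
        · exact absurd ⟨ht, b 1⟩ this.2
      · rw [if_neg b]; positivity)
  have h3 := small (u := fun i => if (i + 1) % 2 = 1 then 0 else 1 / ∏ t ∈ range 2, (Q (i + t) : ℝ))
    (fun i => by positivity) (Eventually.of_forall fun i => by
      by_cases a : (i + 1) % 2 = 1
      · rw [if_pos a]; positivity
      rw [if_neg a, prod_range_succ, prod_range_one]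
      have b0 : (2 : ℝ) ≤ Q (i + 0) := by exact_mod_cast Q_two _
      have b1 : (2 : ℝ) ≤ Q (i + 1) := by exact_mod_cast Q_two _
      have b2 : 1 / ((Q (i + 0) : ℝ) * Q (i + 1)) ≤ 1 := by
        rw [div_le_one (by positivity)]; nlinarith
      have : (0 : ℝ) ≤ (1 / 2) ^ i := by positivity
      by_cases c : md i
      · rw [if_pos c]; split_ifs <;> linarith
      by_cases e : md (i + 1)
      · rw [if_pos e, if_neg c]; linarith
      obtain ⟨t, ht⟩ := odd_big a c e
      have b3 : 2 ^ i ≤ Q (i + t) := by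
        have : 2 ^ i ≤ 2 ^ (i + t) := Nat.pow_le_pow_right (by norm_num) (by omega)
        rw [Q, if_pos ht]; omega
      have b4 : (2 : ℝ) ^ i ≤ Q (i + t) := by exact_mod_cast b3
      rw [if_neg c, if_neg e, zero_add, zero_add, one_div_pow]
      refine one_div_le_one_div_of_le (by positivity) ?_
      fin_cases t
      · simp only [add_zero] at b4 b0 ⊢; nlinarith
      · simp only at b4; nlinarith)
  have h4 := (h1.sub h2).div (tendsto_const_nhds.sub h3 (a := 1)) (by norm_num)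
  simp only [sub_zero, div_one] at h4
  have hd : Tendsto (Qk Q 2) atTop atTop := by
    refine (div_AP (k := 2) (m := 1) (r := 0) one_pos).congr fun n => ?_
    simp [QkAP, Qk, Nat.mod_one]
  refine h4.congr' ?_
  filter_upwards [hd.eventually_gt_atTop 0] with n hn
  have e1 : (cntAP Q x B 2 1 n : ℝ) = ∑ i ∈ range n, ind (digit Q x) B i -
      ∑ i ∈ range n, if (i + 1) % 2 = 1 then 0 else ind (digit Q x) B i := by
    rw [cntAP, ← sum_boole, ← sum_sub_distrib]
    refine sum_congr rfl fun i _ => ?_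
    unfold ind
    by_cases a : (i + 1) % 2 = 1 <;> simp [a]
  have e2 : QkAP Q 2 2 1 n = Qk Q 2 n -
      ∑ i ∈ range n, if (i + 1) % 2 = 1 then 0 else 1 / ∏ t ∈ range 2, (Q (i + t) : ℝ) := by
    rw [QkAP, Qk, sum_filter, ← sum_sub_distrib]
    refine sum_congr rfl fun i _ => ?_
    by_cases a : (i + 1) % 2 = 1 <;> simp [a]
  rw [e1, e2, Pi.div_apply, ← sub_div, ← div_self hn.ne', ← sub_div, div_div_div_cancel_right₀ hn.ne']

theorem main : dimH ({x : ℝ | NormalOrd Q 2 x} \ {x : ℝ | NormalAP Q 2 2 1 x}) = 0 := by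
  refine le_antisymm ((dimH_mono (t := ⋃ a : ℤ × ℕ,
    {x : ℝ | ⌊x⌋ = a.1 ∧ ∃ᶠ n in atTop, big n ∧ digit Q x n = a.2}) fun x hx => ?_).trans ?_) zero_le
  · by_contra h
    refine hx.2 (key hx.1 fun d => ?_)
    by_contra h'
    exact h (Set.mem_iUnion.2 ⟨(⌊x⌋, d), rfl, h'⟩)
  · rw [dimH_iUnion]
    exact iSup_le fun a => (dim_zero Q_two big (fun n hn => by
      rw [pr_Q, Q, if_pos hn, add_assoc]; exact Nat.le_add_right _ _) a.1 a.2).le

end Pool.Agent.H.MP_ab119d_nt
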